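import Pool.Agent.Helper21.CU.St

/-!
# Module RG1 of project CU (MP_ad0dc2_nt), for helper21
-/

set_option autoImplicit false

open Finset

namespace Pool.Agent.Helper51.CU

open Pool.Agent.Helper21.CU

lemma gsq (p : ℕ) (m : ℤ) : g p m * g p m = 1 := by
  unfold g; split_ifs <;> norm_num

lemma gabs (p : ℕ) (m : ℤ) : |g p m| ≤ 1 := by
  unfold g; split_ifs <;> norm_num

lemma gper (p : ℕ) (a b : ℤ) (h : (p : ℤ) ∣ a - b) : g p a = g p b := by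
  have h1 : (a : ZMod p) = (b : ZMod p) := by
    have h2 := (ZMod.intCast_zmod_eq_zero_iff_dvd (a - b) p).2 h
    push_cast at h2
    exact sub_eq_zero.1 h2
  unfold g; rw [h1]

lemma Dper (k s z z' m : ℤ) (h : m ∣ z - z') : m ∣ D k s z - D k s z' := by
  have h1 : D k s z - D k s z' = (z - z') * (-12 * s * (z ^ 2 + z * z' + z' ^ 2)) := by
    unfold D; ring
  rw [h1]; exact Dvd.dvd.mul_right h _

lemma invex (N : ℕ) : ∃ n : ℕ → ℤ, Inv N n := by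
  have h : ∀ s : ℕ, ∃ m : ℤ, s.Coprime N → (s : ℤ) ∣ N * m - 1 := by
    intro s
    by_cases hs : s.Coprime N
    · obtain ⟨a, b, hab⟩ := Nat.isCoprime_iff_coprime.2 hs
      refine ⟨b, fun _ => ⟨-a, ?_⟩⟩
      linear_combination hab
    · exact ⟨0, fun h => absurd h hs⟩
  choose n hn using h
  exact ⟨n, fun s _ hs => hn s hs⟩

/-- one value of `s` -/
lemma persum (h2 : StDIS) (h3 : StCSM) (k : ℤ) (s p q H : ℕ) (n j : ℤ) (hp : p.Prime)
    (hq : q.Prime) (hpq : p ≠ q) (hp3 : p % 3 = 2) (hq3 : q % 3 = 2) (hp5 : 5 ≤ p) (hq5 : 5 ≤ q)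
    (hps : ¬ (p : ℤ) ∣ s) (hqs : ¬ (q : ℤ) ∣ s) (hN : p * q ≤ s) (hco : s.Coprime (p * q))
    (hn : (s : ℤ) ∣ (p * q : ℕ) * n - 1) (hH : 1 ≤ H) :
    ∑ v ∈ R k s, g p (D k s (v + s * j)) * g q (D k s (v + s * j)) ≤
      ((R k s).card : ℝ) / (p * q : ℕ) + (p * q : ℕ) * (((R k s).card : ℝ) / s +
        3 * (R k s).card / √(H : ℝ) + ∑ h ∈ Icc 1 H, (1 : ℝ) / h * ‖W k s (h * n)‖) := by
  set N := p * q with hNd
  have hN1 : 1 ≤ N := Nat.mul_pos hp.pos hq.pos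
  set G : ℕ → ℝ := fun v => g p (D k s (v + s * j)) * g q (D k s (v + s * j)) with hG
  set E : ℝ := ((R k s).card : ℝ) / s +
        3 * (R k s).card / √(H : ℝ) + ∑ h ∈ Icc 1 H, (1 : ℝ) / h * ‖W k s (h * n)‖ with hE
  have hGabs : ∀ v, |G v| ≤ 1 := by
    intro v
    simp only [hG, abs_mul]
    calc _ ≤ 1 * 1 := mul_le_mul (gabs _ _) (gabs _ _) (abs_nonneg _) (by norm_num)
      _ = 1 := one_mul 1
  have hGper : ∀ v, G v = G (v % N) := by
    intro v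
    have hd : (N : ℤ) ∣ ((v : ℤ) + s * j) - (((v % N : ℕ) : ℤ) + s * j) := by
      have : ((v : ℤ) + s * j) - (((v % N : ℕ) : ℤ) + s * j) = (v : ℤ) - ((v % N : ℕ) : ℤ) := by ring
      rw [this]
      refine ⟨((v / N : ℕ) : ℤ), ?_⟩
      have h := Nat.div_add_mod v N
      have h' : ((N * (v / N) + v % N : ℕ) : ℤ) = v := by rw [h]
      push_cast at h' ⊢
      linarith
    have hpN : (p : ℤ) ∣ N := by rw [hNd]; push_cast; exact Dvd.intro _ rfl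
    have hqN : (q : ℤ) ∣ N := by rw [hNd]; push_cast; exact Dvd.intro_left _ rfl
    simp only [hG]
    rw [gper p _ _ (Dper k s _ _ _ (hpN.trans hd)), gper q _ _ (Dper k s _ _ _ (hqN.trans hd))]
  have hfib : ∑ v ∈ R k s, G v =
      ∑ v₀ ∈ range N, G v₀ * (((R k s).filter (fun v' : ℕ => v' % N = v₀)).card : ℝ) := by
    rw [← Finset.sum_fiberwise_of_maps_to (s := R k s) (t := range N) (g := fun v => v % N)
      (fun v _ => mem_range.2 (Nat.mod_lt _ hN1)) G]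
    refine sum_congr rfl fun v₀ hv₀ => ?_
    rw [Finset.sum_congr rfl (g := fun _ => G v₀), sum_const, nsmul_eq_mul, mul_comm]
    intro v hv
    rw [hGper v, (mem_filter.1 hv).2]
  have hcs : ∑ v₀ ∈ range N, G v₀ = 1 := h3 k s j p q hp hq hpq hp3 hq3 hp5 hq5 hps hqs
  have hdis : ∀ v₀ ∈ range N, |(((R k s).filter (fun v' : ℕ => v' % N = v₀)).card : ℝ) -
      ((R k s).card : ℝ) / N| ≤ E := fun v₀ hv₀ =>
    h2 k s N v₀ H n hN1 hN hco hn (mem_range.1 hv₀) hH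
  change ∑ v ∈ R k s, G v ≤ _
  rw [hfib]
  have hsplit : ∀ v₀ ∈ range N, G v₀ * (((R k s).filter (fun v' : ℕ => v' % N = v₀)).card : ℝ) ≤
      G v₀ * (((R k s).card : ℝ) / N) + E := by
    intro v₀ hv₀
    have h := hdis v₀ hv₀
    have h' : G v₀ * ((((R k s).filter (fun v' : ℕ => v' % N = v₀)).card : ℝ) -
      ((R k s).card : ℝ) / N) ≤ E := by
      refine (le_abs_self _).trans ?_
      rw [abs_mul]
      calc _ ≤ 1 * |(((R k s).filter (fun v' : ℕ => v' % N = v₀)).card : ℝ) -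
          ((R k s).card : ℝ) / N| := mul_le_mul_of_nonneg_right (hGabs _) (abs_nonneg _)
        _ ≤ E := by rw [one_mul]; exact h
    linarith
  calc _ ≤ ∑ v₀ ∈ range N, (G v₀ * (((R k s).card : ℝ) / N) + E) := sum_le_sum hsplit
    _ = _ := by
      rw [sum_add_distrib, ← sum_mul, hcs, one_mul, sum_const, card_range, nsmul_eq_mul]

/-- the sum of `1/√h` -/
lemma sumsqrt (H : ℕ) : ∑ h ∈ Icc 1 H, (1 : ℝ) / √(h : ℝ) ≤ 2 * √(H : ℝ) := by
  induction H with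
  | zero => simp
  | succ H ih =>
    rw [sum_Icc_succ_top (by omega)]
    have h1 : 0 < √((H + 1 : ℕ) : ℝ) := Real.sqrt_pos.2 (by positivity)
    have h0 : 0 ≤ √(H : ℝ) := Real.sqrt_nonneg _
    have h3 : √((H + 1 : ℕ) : ℝ) ^ 2 = (H : ℝ) + 1 := by
      rw [Real.sq_sqrt (by positivity)]; push_cast; ring
    have h4 : √(H : ℝ) ^ 2 = H := Real.sq_sqrt (by positivity)
    have h5 : (1 : ℝ) / √((H + 1 : ℕ) : ℝ) ≤ 2 * √((H + 1 : ℕ) : ℝ) - 2 * √(H : ℝ) := by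
      rw [div_le_iff₀ h1]
      nlinarith [sq_nonneg (√((H + 1 : ℕ) : ℝ) - √(H : ℝ))]
    linarith

lemma logX {X : ℕ} (hX : 3 ≤ X) : 1 ≤ Real.log X := by
  have h : (3 : ℝ) ≤ X := by exact_mod_cast hX
  rw [Real.le_log_iff_exp_le (by linarith)]
  have := Real.exp_one_lt_d9
  linarith

/-- the parameters -/
lemma params {X : ℕ} (hX : 3 ≤ X) : ∃ H : ℕ, 1 ≤ H ∧
    1 / √(H : ℝ) ≤ Real.log X ^ (-(1 / 20) : ℝ) ∧
    √(H : ℝ) * Real.log X ^ (-(1 / 10) : ℝ) ≤ 2 * Real.log X ^ (-(1 / 20) : ℝ) := by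
  have hl := logX hX
  set L := Real.log X with hL
  have hL0 : 0 < L := by linarith
  have ha : 1 ≤ L ^ (1 / 10 : ℝ) := Real.one_le_rpow hl (by norm_num)
  refine ⟨⌈L ^ (1 / 10 : ℝ)⌉₊, ?_, ?_, ?_⟩
  · exact Nat.one_le_ceil_iff.2 (by linarith)
  · have h1 : L ^ (1 / 20 : ℝ) ≤ √((⌈L ^ (1 / 10 : ℝ)⌉₊ : ℕ) : ℝ) := by
      apply Real.le_sqrt_of_sq_le
      rw [← Real.rpow_natCast, ← Real.rpow_mul hL0.le]
      refine le_trans (le_of_eq ?_) (Nat.le_ceil _)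
      norm_num
    have h2 : 0 < L ^ (1 / 20 : ℝ) := Real.rpow_pos_of_pos hL0 _
    rw [Real.rpow_neg hL0.le, ← one_div]
    exact one_div_le_one_div_of_le h2 h1
  · have h1 : √((⌈L ^ (1 / 10 : ℝ)⌉₊ : ℕ) : ℝ) ≤ 2 * L ^ (1 / 20 : ℝ) := by
      rw [Real.sqrt_le_left (by positivity)]
      have h2 : ((⌈L ^ (1 / 10 : ℝ)⌉₊ : ℕ) : ℝ) < L ^ (1 / 10 : ℝ) + 1 :=
        Nat.ceil_lt_add_one (by linarith)
      have h3 : (2 * L ^ (1 / 20 : ℝ)) ^ 2 = 4 * L ^ (1 / 10 : ℝ) := by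
        rw [mul_pow, ← Real.rpow_natCast (L ^ (1 / 20 : ℝ)), ← Real.rpow_mul hL0.le]
        norm_num
      rw [h3]; linarith
    have h4 : L ^ (1 / 20 : ℝ) * L ^ (-(1 / 10) : ℝ) = L ^ (-(1 / 20) : ℝ) := by
      rw [← Real.rpow_add hL0]; norm_num
    calc _ ≤ 2 * L ^ (1 / 20 : ℝ) * L ^ (-(1 / 10) : ℝ) :=
          mul_le_mul_of_nonneg_right h1 (Real.rpow_nonneg hL0.le _)
      _ = _ := by rw [mul_assoc, h4]

lemma oneS {X S : ℕ} (hX : 3 ≤ X) (hS : √(X : ℝ) ≤ S) :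
    1 / (S : ℝ) ≤ Real.log X ^ (-(1 / 20) : ℝ) := by
  have hl := logX hX
  have hX0 : (0 : ℝ) < X := by positivity
  set L := Real.log X with hL
  have hL0 : 0 < L := by linarith
  have h1 : L ^ (1 / 20 : ℝ) ≤ S := by
    calc L ^ (1 / 20 : ℝ) ≤ L ^ (1 / 2 : ℝ) := Real.rpow_le_rpow_of_exponent_le hl (by norm_num)
      _ ≤ (X : ℝ) ^ (1 / 2 : ℝ) := by
        refine Real.rpow_le_rpow hL0.le ?_ (by norm_num)
        have := Real.log_le_sub_one_of_pos hX0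
        linarith
      _ = √(X : ℝ) := by rw [Real.sqrt_eq_rpow]
      _ ≤ S := hS
  rw [Real.rpow_neg hL0.le, ← one_div]
  exact one_div_le_one_div_of_le (Real.rpow_pos_of_pos hL0 _) h1

lemma Rsub (k : ℤ) {s X : ℕ} (h : s ≤ X) : (range X).filter (fun v => v ∈ R k s) = R k s := by
  ext v
  simp only [R, mem_filter, mem_range]
  constructor
  · exact fun h => h.2
  · exact fun h' => ⟨lt_of_lt_of_le h'.1 h, h'⟩

lemma sumB (k : ℤ) (S X : ℕ) (F : ℕ → ℕ → ℝ) :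
    ∑ i ∈ ((Ioc S X) ×ˢ (range X)).filter (fun i : ℕ × ℕ => i.2 ∈ R k i.1), F i.1 i.2 =
      ∑ s ∈ Ioc S X, ∑ v ∈ R k s, F s v := by
  rw [sum_filter, sum_product]
  refine sum_congr rfl fun s hs => ?_
  simp only
  rw [← sum_filter, Rsub k (mem_Ioc.1 hs).2]

/-- the terms `p ≠ q` -/
lemma offdiag (h1 : StHOO) (h2 : StDIS) (h3 : StCSM) (h5 : StCNT) (k : ℤ) (hk : NonCube k) :
    ∃ C : ℝ, 0 < C ∧ ∀ (X S p q : ℕ) (P₀ P₁ : ℝ) (j : ℤ), 3 ≤ X → √(X : ℝ) ≤ S → S ≤ X →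
      1 ≤ P₀ → P₁ ^ 2 ≤ S → p.Prime → q.Prime → p ≠ q → p % 3 = 2 → q % 3 = 2 → 5 ≤ p → 5 ≤ q →
      P₀ < p → P₀ < q → (p : ℝ) ≤ P₁ → (q : ℝ) ≤ P₁ →
      ∑ s ∈ (Ioc S X).filter (fun s : ℕ => ¬ (p : ℤ) ∣ s ∧ ¬ (q : ℤ) ∣ s),
        ∑ v ∈ R k s, g p (D k s (v + s * j)) * g q (D k s (v + s * j)) ≤
      C * X * (1 / P₀ + P₁ ^ 2 * Real.log X ^ (-(1 / 20) : ℝ)) := by
  obtain ⟨C1, hC1, hHOO⟩ := h1 k hk
  obtain ⟨C2, hC2, hCNT⟩ := h5 k hk
  refine ⟨4 * C2 + 4 * C1, by positivity, ?_⟩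
  intro X S p q P₀ P₁ j hX hSX hS hP₀ hP₁ hp hq hpq hp3 hq3 hp5 hq5 hP₀p hP₀q hpP₁ hqP₁
  obtain ⟨H, hH1, hHa, hHb⟩ := params hX
  have hSa := oneS hX hSX
  have hl := logX hX
  set L := Real.log X ^ (-(1 / 20) : ℝ) with hL
  have hL0 : 0 ≤ L := Real.rpow_nonneg (by linarith) _
  obtain ⟨n, hn⟩ := invex (p * q)
  set N := p * q with hNd
  have hp0 : (0 : ℝ) < p := by exact_mod_cast hp.pos
  have hq0 : (0 : ℝ) < q := by exact_mod_cast hq.pos
  have hNP : ((N : ℕ) : ℝ) ≤ P₁ ^ 2 := by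
    rw [hNd]; push_cast
    calc (p : ℝ) * q ≤ P₁ * P₁ := mul_le_mul hpP₁ hqP₁ hq0.le (by linarith)
      _ = P₁ ^ 2 := by ring
  have hNS : N ≤ S := by exact_mod_cast hNP.trans hP₁
  have hN1 : 1 ≤ N := Nat.mul_pos hp.pos hq.pos
  have hN0 : (0 : ℝ) < N := by exact_mod_cast hN1
  have hS1 : 1 ≤ S := hN1.trans hNS
  have hS0 : (0 : ℝ) < S := by exact_mod_cast hS1
  have hX0 : (0 : ℝ) < X := by exact_mod_cast (by omega : 0 < X)
  have hNP0 : P₀ ≤ N := by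
    rw [hNd]; push_cast
    have h1q : (1 : ℝ) ≤ q := by exact_mod_cast hq.one_lt.le
    nlinarith
  set F := (Ioc S X).filter (fun s : ℕ => ¬ (p : ℤ) ∣ s ∧ ¬ (q : ℤ) ∣ s) with hF
  have hcop : ∀ s ∈ F, s.Coprime N := by
    intro s hs
    have h := (mem_filter.1 hs).2
    have ha : ¬ p ∣ s := fun h' => h.1 (by exact_mod_cast h')
    have hb : ¬ q ∣ s := fun h' => h.2 (by exact_mod_cast h')
    rw [hNd]
    exact Nat.Coprime.mul_right ((hp.coprime_iff_not_dvd.2 ha).symm) ((hq.coprime_iff_not_dvd.2 hb).symm)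
  have hFI : F ⊆ Icc 1 X := by
    intro s hs
    have h := mem_Ioc.1 (mem_filter.1 hs).1
    exact mem_Icc.2 ⟨by omega, h.2⟩
  have hρ : ∑ s ∈ F, ((R k s).card : ℝ) ≤ C2 * X :=
    (sum_le_sum_of_subset_of_nonneg hFI fun _ _ _ => by positivity).trans (hCNT X)
  have hstep : ∀ s ∈ F, ∑ v ∈ R k s, g p (D k s (v + s * j)) * g q (D k s (v + s * j)) ≤
      ((R k s).card : ℝ) * (1 / P₀) + P₁ ^ 2 * (((R k s).card : ℝ) * L +
        3 * ((R k s).card : ℝ) * L + ∑ h ∈ Icc 1 H, (1 : ℝ) / h * ‖W k s (h * n s)‖) := by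
    intro s hs
    have hs' := mem_Ioc.1 (mem_filter.1 hs).1
    have hsd := (mem_filter.1 hs).2
    have hs1 : 1 ≤ s := by omega
    have h := persum h2 h3 k s p q H (n s) j hp hq hpq hp3 hq3 hp5 hq5 hsd.1 hsd.2
      (by omega) (hcop s hs) (hn s hs1 (hcop s hs)) hH1
    refine h.trans ?_
    have hr0 : (0 : ℝ) ≤ (R k s).card := by positivity
    have e1 : ((R k s).card : ℝ) / (N : ℕ) ≤ (R k s).card * (1 / P₀) := by
      rw [div_eq_mul_one_div]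
      exact mul_le_mul_of_nonneg_left (one_div_le_one_div_of_le (by linarith) hNP0) hr0
    have e2 : ((R k s).card : ℝ) / s ≤ (R k s).card * L := by
      rw [div_eq_mul_one_div]
      refine mul_le_mul_of_nonneg_left (le_trans ?_ hSa) hr0
      exact one_div_le_one_div_of_le hS0 (by exact_mod_cast hs'.1.le)
    have e3 : 3 * ((R k s).card : ℝ) / √(H : ℝ) ≤ 3 * ((R k s).card : ℝ) * L := by
      rw [div_eq_mul_one_div]
      exact mul_le_mul_of_nonneg_left hHa (by positivity)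
    have e4 : (0 : ℝ) ≤ ∑ h ∈ Icc 1 H, (1 : ℝ) / h * ‖W k s (h * n s)‖ :=
      sum_nonneg fun _ _ => by positivity
    refine add_le_add e1 (mul_le_mul hNP (by linarith) (by positivity) (by positivity))
  refine (sum_le_sum hstep).trans ?_
  rw [sum_add_distrib, ← mul_sum, sum_add_distrib, sum_add_distrib, ← sum_mul, ← sum_mul, ← sum_mul,
    ← mul_sum, sum_comm]
  have hW : ∑ h ∈ Icc 1 H, ∑ s ∈ F, (1 : ℝ) / h * ‖W k s (h * n s)‖ ≤ 4 * C1 * X * L := by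
    have hb : ∀ h ∈ Icc 1 H, ∑ s ∈ F, (1 : ℝ) / h * ‖W k s (h * n s)‖ ≤
        1 / √(h : ℝ) * (C1 * X * Real.log X ^ (-(1 / 10) : ℝ)) := by
      intro h hh
      have hh1 := (mem_Icc.1 hh).1
      have hh0 : (0 : ℝ) < h := by exact_mod_cast hh1
      rw [← mul_sum]
      have hsub : F ⊆ (Icc 1 X).filter (fun s : ℕ => s.Coprime N) := fun s hs =>
        mem_filter.2 ⟨hFI hs, hcop s hs⟩
      have h6 : ∑ s ∈ F, ‖W k s (h * n s)‖ ≤ C1 * √(h : ℝ) * X * Real.log X ^ (-(1 / 10) : ℝ) :=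
        (sum_le_sum_of_subset_of_nonneg hsub fun _ _ _ => by positivity).trans
          (hHOO X N h hX hN1 hh1 n hn)
      calc (1 : ℝ) / h * ∑ s ∈ F, ‖W k s (h * n s)‖
          ≤ 1 / h * (C1 * √(h : ℝ) * X * Real.log X ^ (-(1 / 10) : ℝ)) :=
            mul_le_mul_of_nonneg_left h6 (by positivity)
        _ = _ := by
          have h7 : (1 : ℝ) / h = 1 / √(h : ℝ) * (1 / √(h : ℝ)) := by
            rw [one_div_mul_one_div, Real.mul_self_sqrt hh0.le]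
          have h8 : √(h : ℝ) ≠ 0 := (Real.sqrt_pos.2 hh0).ne'
          rw [h7]
          field_simp
    refine (sum_le_sum hb).trans ?_
    rw [← sum_mul]
    have hl0 : 0 ≤ Real.log X ^ (-(1 / 10) : ℝ) := Real.rpow_nonneg (by linarith) _
    calc _ ≤ 2 * √(H : ℝ) * (C1 * X * Real.log X ^ (-(1 / 10) : ℝ)) :=
          mul_le_mul_of_nonneg_right (sumsqrt H) (by positivity)
      _ = 2 * C1 * X * (√(H : ℝ) * Real.log X ^ (-(1 / 10) : ℝ)) := by ring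
      _ ≤ 2 * C1 * X * (2 * L) := mul_le_mul_of_nonneg_left hHb (by positivity)
      _ = _ := by ring
  have hP0' : 0 ≤ 1 / P₀ := by positivity
  have f1 : (∑ s ∈ F, ((R k s).card : ℝ)) * (1 / P₀) ≤ C2 * X * (1 / P₀) :=
    mul_le_mul_of_nonneg_right hρ hP0'
  have f2 : (∑ s ∈ F, ((R k s).card : ℝ)) * L ≤ C2 * X * L := mul_le_mul_of_nonneg_right hρ hL0
  have f3 : (3 * ∑ s ∈ F, ((R k s).card : ℝ)) * L ≤ 3 * (C2 * X * L) := by
    rw [mul_assoc]; exact mul_le_mul_of_nonneg_left f2 (by norm_num)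
  calc _ ≤ C2 * X * (1 / P₀) + P₁ ^ 2 * (C2 * X * L + 3 * (C2 * X * L) + 4 * C1 * X * L) := by
        refine add_le_add f1 (mul_le_mul_of_nonneg_left ?_ (by positivity))
        exact add_le_add (add_le_add f2 f3) hW
    _ = C2 * X * (1 / P₀) + (4 * C2 + 4 * C1) * X * (P₁ ^ 2 * L) := by ring
    _ ≤ (4 * C2 + 4 * C1) * X * (1 / P₀) + (4 * C2 + 4 * C1) * X * (P₁ ^ 2 * L) := by
        gcongr
        nlinarith
    _ = _ := by ring

open scoped Classical in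
theorem hRG1 (h1 : StHOO) (h2 : StDIS) (h3 : StCSM) (h4 : StASQ) (h5 : StCNT) (h6 : StCNP) :
    StRG1 := by
  intro k hk
  obtain ⟨C0, hC0, hoff⟩ := offdiag h1 h2 h3 h5 k hk
  obtain ⟨C2, hC2, hCNT⟩ := h5 k hk
  obtain ⟨C3, hC3, hCNP⟩ := h6 k hk
  refine ⟨2 * C3 + 4 * C2 + 4 * C0, by positivity, ?_⟩
  intro X S P₀ P₁ T j hX hSX hS hP₀ hP₁ hT hTne
  have hk0 : k ≠ 0 := fun h => hk 0 (by rw [h]; norm_num)
  have hX0 : (0 : ℝ) < X := by exact_mod_cast (by omega : 0 < X)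
  have hl := logX hX
  set L := Real.log X ^ (-(1 / 20) : ℝ) with hL
  have hL0 : 0 ≤ L := Real.rpow_nonneg (by linarith) _
  set B := ((Ioc S X) ×ˢ (range X)).filter (fun i : ℕ × ℕ => i.2 ∈ R k i.1) with hB
  have hinj : Function.Injective (fun i : ℕ × ℕ => ((i.1 : ℤ), (i.2 : ℤ) + i.1 * j)) := by
    rintro ⟨a, b⟩ ⟨c, d⟩ h
    simp only [Prod.mk.injEq] at h
    obtain ⟨h7, h8⟩ := h
    have h9 : a = c := by exact_mod_cast h7
    subst h9
    have : b = d := by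
      have : (b : ℤ) = d := by linarith
      exact_mod_cast this
    rw [this]
  set φ : ℕ × ℕ ↪ ℤ × ℤ := ⟨fun i => ((i.1 : ℤ), (i.2 : ℤ) + i.1 * j), hinj⟩ with hφ
  clear_value B
  have key := h4 (B.map φ) T (fun i => D k i.1 i.2) (fun p i => (p : ℤ) ∣ i.1) hTne
  have hlhs : (((B.map φ).filter (fun i => IsSquare ((fun i : ℤ × ℤ => D k i.1 i.2) i))).card) =
      (((Ioc S X) ×ˢ (range X)).filter (fun i : ℕ × ℕ => i.2 ∈ R k i.1 ∧
        IsSquare (D k i.1 (i.2 + i.1 * j)))).card := by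
    rw [filter_map, card_map, hB, filter_filter]
    rfl
  rw [hlhs] at key
  refine key.trans ?_
  have hTc : (0 : ℝ) < T.card := by exact_mod_cast card_pos.2 hTne
  -- the first term
  have t1 : ∑ p ∈ T, (((B.map φ).filter (fun i : ℤ × ℤ => (p : ℤ) ∣ i.1)).card : ℝ) ≤
      T.card * (C3 * X / P₀) := by
    have h7 : ∀ p ∈ T, (((B.map φ).filter (fun i : ℤ × ℤ => (p : ℤ) ∣ i.1)).card : ℝ) ≤
        C3 * X / P₀ := by
      intro p hp
      obtain ⟨hpp, hp3, hp5, hpk, hpP0, hpP1⟩ := hT p hp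
      have h8 : ((((B.map φ).filter (fun i : ℤ × ℤ => (p : ℤ) ∣ i.1)).card : ℕ) : ℝ) =
          ∑ s ∈ (Ioc S X).filter (fun s : ℕ => p ∣ s), ((R k s).card : ℝ) := by
        rw [filter_map, card_map, card_filter]
        push_cast
        rw [sum_filter]
        have h9 := sumB k S X (fun s v => if p ∣ s then (1 : ℝ) else 0)
        rw [← hB] at h9
        have h10 : ∑ s ∈ Ioc S X, (if p ∣ s then ((R k s).card : ℝ) else 0) =
            ∑ s ∈ Ioc S X, ∑ v ∈ R k s, (if p ∣ s then (1 : ℝ) else 0) := by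
          refine sum_congr rfl fun s _ => ?_
          split_ifs <;> simp
        rw [h10, ← h9]
        refine sum_congr rfl fun i _ => ?_
        have h11 : ((p : ℤ) ∣ (φ i).1) ↔ p ∣ i.1 := by
          simp only [hφ, Function.Embedding.coeFn_mk]
          exact Int.natCast_dvd_natCast
        simp only [Function.comp]
        by_cases h12 : p ∣ i.1
        · rw [if_pos (h11.2 h12), if_pos h12]
        · rw [if_neg (fun h => h12 (h11.1 h)), if_neg h12]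
      rw [h8]
      have hsub : (Ioc S X).filter (fun s : ℕ => p ∣ s) ⊆ (Icc 1 X).filter (fun s : ℕ => p ∣ s) := by
        intro s hs
        rw [mem_filter, mem_Ioc] at hs
        rw [mem_filter, mem_Icc]
        exact ⟨⟨by omega, hs.1.2⟩, hs.2⟩
      refine (sum_le_sum_of_subset_of_nonneg hsub fun _ _ _ => by positivity).trans ?_
      refine (hCNP p hpp hpk X).trans ?_
      exact div_le_div_of_nonneg_left (by positivity) (by linarith) hpP0.le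
    refine (sum_le_sum h7).trans ?_
    rw [sum_const, nsmul_eq_mul]
  -- the second term
  have trans2 : ∀ p q : ℕ, ∑ i ∈ (B.map φ).filter (fun i : ℤ × ℤ => ¬ (p : ℤ) ∣ i.1 ∧ ¬ (q : ℤ) ∣ i.1),
      g p (D k i.1 i.2) * g q (D k i.1 i.2) =
      ∑ s ∈ (Ioc S X).filter (fun s : ℕ => ¬ (p : ℤ) ∣ s ∧ ¬ (q : ℤ) ∣ s),
        ∑ v ∈ R k s, g p (D k s (v + s * j)) * g q (D k s (v + s * j)) := by
    intro p q
    rw [filter_map, sum_map, sum_filter, sum_filter]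
    have h9 := sumB k S X (fun s v => if (¬ (p : ℤ) ∣ (s : ℤ) ∧ ¬ (q : ℤ) ∣ (s : ℤ)) then
      g p (D k s (v + s * j)) * g q (D k s (v + s * j)) else 0)
    rw [← hB] at h9
    refine Eq.trans ?_ (h9.trans ?_)
    · rfl
    · refine sum_congr rfl fun s _ => ?_
      split_ifs <;> simp
  have t2 : ∑ p ∈ T, ∑ q ∈ T,
      ∑ i ∈ (B.map φ).filter (fun i : ℤ × ℤ => ¬ (p : ℤ) ∣ i.1 ∧ ¬ (q : ℤ) ∣ i.1),
      g p (D k i.1 i.2) * g q (D k i.1 i.2) ≤
      T.card * (C2 * X) + T.card ^ 2 * (C0 * X * (1 / P₀ + P₁ ^ 2 * L)) := by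
    have hP1 : 0 ≤ P₁ ^ 2 := by positivity
    have hM0 : 0 ≤ C0 * X * (1 / P₀ + P₁ ^ 2 * L) := by positivity
    have h7 : ∀ p ∈ T, ∀ q ∈ T,
        ∑ i ∈ (B.map φ).filter (fun i : ℤ × ℤ => ¬ (p : ℤ) ∣ i.1 ∧ ¬ (q : ℤ) ∣ i.1),
        g p (D k i.1 i.2) * g q (D k i.1 i.2) ≤
        (if p = q then C2 * X else 0) + C0 * X * (1 / P₀ + P₁ ^ 2 * L) := by
      intro p hp q hq
      obtain ⟨hpp, hp3, hp5, hpk, hpP0, hpP1⟩ := hT p hp
      obtain ⟨hqp, hq3, hq5, hqk, hqP0, hqP1⟩ := hT q hq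
      rw [trans2]
      by_cases hpq : p = q
      · rw [if_pos hpq]
        subst hpq
        have h8 : ∑ s ∈ (Ioc S X).filter (fun s : ℕ => ¬ (p : ℤ) ∣ s ∧ ¬ (p : ℤ) ∣ s),
            ∑ v ∈ R k s, g p (D k s (v + s * j)) * g p (D k s (v + s * j)) ≤ C2 * X := by
          simp only [gsq, sum_const, nsmul_eq_mul, mul_one]
          have hsub : (Ioc S X).filter (fun s : ℕ => ¬ (p : ℤ) ∣ s ∧ ¬ (p : ℤ) ∣ s) ⊆ Icc 1 X := by
            intro s hs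
            rw [mem_filter, mem_Ioc] at hs
            rw [mem_Icc]
            omega
          exact (sum_le_sum_of_subset_of_nonneg hsub fun _ _ _ => by positivity).trans (hCNT X)
        linarith
      · rw [if_neg hpq, zero_add]
        exact hoff X S p q P₀ P₁ j hX hSX hS hP₀ hP₁ hpp hqp hpq hp3 hq3 hp5 hq5 hpP0 hqP0 hpP1 hqP1
    refine (sum_le_sum fun p hp => sum_le_sum fun q hq => h7 p hp q hq).trans ?_
    have h8 : ∀ p ∈ T, ∑ q ∈ T, ((if p = q then C2 * X else 0) +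
        C0 * X * (1 / P₀ + P₁ ^ 2 * L)) = C2 * X + T.card * (C0 * X * (1 / P₀ + P₁ ^ 2 * L)) := by
      intro p hp
      rw [sum_add_distrib, sum_ite_eq, if_pos hp, sum_const, nsmul_eq_mul]
    rw [sum_congr rfl h8, sum_const, nsmul_eq_mul]
    apply le_of_eq
    ring
  have hP0' : 0 < P₀ := by linarith
  have f1 : 2 / (T.card : ℝ) * (∑ p ∈ T, (((B.map φ).filter (fun i : ℤ × ℤ => (p : ℤ) ∣ i.1)).card : ℝ))
      ≤ 2 * C3 * X * (1 / P₀) := by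
    calc _ ≤ 2 / (T.card : ℝ) * (T.card * (C3 * X / P₀)) :=
          mul_le_mul_of_nonneg_left t1 (by positivity)
      _ = _ := by field_simp
  have f2 : 4 / (T.card : ℝ) ^ 2 * (∑ p ∈ T, ∑ q ∈ T,
      ∑ i ∈ (B.map φ).filter (fun i : ℤ × ℤ => ¬ (p : ℤ) ∣ i.1 ∧ ¬ (q : ℤ) ∣ i.1),
      g p (D k i.1 i.2) * g q (D k i.1 i.2)) ≤
      4 * C2 * X * (1 / T.card) + 4 * (C0 * X * (1 / P₀ + P₁ ^ 2 * L)) := by
    calc _ ≤ 4 / (T.card : ℝ) ^ 2 * (T.card * (C2 * X) + T.card ^ 2 * (C0 * X * (1 / P₀ + P₁ ^ 2 * L))) :=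
          mul_le_mul_of_nonneg_left t2 (by positivity)
      _ = _ := by field_simp
  refine le_trans (le_of_eq ?_) ((add_le_add f1 f2).trans ?_)
  · congr!
  have g1 : 0 ≤ X * (1 / (T.card : ℝ)) := by positivity
  have g2 : 0 ≤ X * (1 / P₀) := by positivity
  have g3 : 0 ≤ X * (P₁ ^ 2 * L) := by positivity
  have h20 : (2 * C3 + 4 * C2 + 4 * C0) * X * (1 / T.card + 1 / P₀ + P₁ ^ 2 * L) -
      (2 * C3 * X * (1 / P₀) + (4 * C2 * X * (1 / T.card) + 4 * (C0 * X * (1 / P₀ + P₁ ^ 2 * L)))) =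
      (2 * C3 + 4 * C0) * (X * (1 / (T.card : ℝ))) + 4 * C2 * (X * (1 / P₀)) +
        (2 * C3 + 4 * C2) * (X * (P₁ ^ 2 * L)) := by ring
  have h21 : 0 ≤ (2 * C3 + 4 * C0) * (X * (1 / (T.card : ℝ))) + 4 * C2 * (X * (1 / P₀)) +
        (2 * C3 + 4 * C2) * (X * (P₁ ^ 2 * L)) := by positivity
  linarith

end Pool.Agent.Helper51.CU
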